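import Pool.Agent.Helper55.QB.Dense1
import Pool.Agent.Helper18.QB.Tall
import Pool.Agent.Helper18.QB.ExistsCE
import Pool.Agent.Helper9.QB.LimExt
import Pool.Agent.Helper87.QB.Rank
import Pool.Agent.Helper72.QB.Interval
import Pool.Agent.Helper5.QB.SLemma
import Pool.Agent.Helper64.QB.Pigeon
import Pool.Agent.Helper46.QB.Ring2
import Pool.Agent.Helper15.QB.VUnion

/-!
# QB-O3: every letter can be added
-/

set_option autoImplicit false

namespace Pool.Agent.Helper33.QB

open Set

universe v

variable {Ω : Type} {I : Type v} {α : Ordinal.{0}}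
variable [LinearOrder I] [WellFoundedLT I] {b : I → NmD Ω I} {i m : I} {p : Cnd Ω I}

namespace DL

open Classical in
/-- The condition `r` with the letter `l`. -/
noncomputable def add (r : Cnd Ω I) (l : I) (h : Ω → Ω) : Cnd Ω I where
  Y := r.Y
  R := r.R
  r := r.r
  S := insert l r.S
  h := fun i => if i = l then (fun x => if x ∈ r.Y then h x else x) else r.h i

theorem acts_empty {G : I → Ω → Ω → Prop} (hG : ∀ i x y, ¬ G i x y) {g : FreeGroup I} {x y : Ω}
    (h : Acts G g x y) : g = 1 := by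
  induction h with
  | one => rfl
  | fwd _ h2 => exact absurd h2 (hG _ _ _)
  | bwd _ h2 => exact absurd h2 (hG _ _ _)

theorem ce_congr {Y : Set Ω} {R : Set (Set Ω)} (hR : ∀ K ∈ R, K ⊆ Y) {h h' : Ω → Ω}
    (hh : CE Y R h) (he : EqOn h' h Y) : CE Y R h' := by
  have him : ∀ K, K ⊆ Y → h' '' K = h '' K := fun K hK => image_congr fun x hx => he (hK hx)
  refine ⟨fun x hx => he hx ▸ hh.maps x hx, fun x hx y hy hxy => ?_, fun K hK => ?_, fun K hK => ?_,
    ?_⟩
  · rw [he hx, he hy] at hxy
    exact hh.inj hx hy hxy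
  · obtain ⟨K', hK', h1⟩ := hh.img K hK
    exact ⟨K', hK', by rw [him K (hR K hK), him Y (subset_refl _), h1]⟩
  · have : {x | x ∈ Y ∧ h' x ∈ K} = {x | x ∈ Y ∧ h x ∈ K} := by
      ext x
      constructor
      · rintro ⟨hx, h1⟩
        exact ⟨hx, he hx ▸ h1⟩
      · rintro ⟨hx, h1⟩
        exact ⟨hx, (he hx).symm ▸ h1⟩
    rw [this]
    exact hh.pre K hK
  · rw [him Y (subset_refl _)]
    exact hh.closed

theorem basic_add {r : Cnd Ω I} {l : I} {h : Ω → Ω} (hr : Basic α r) (hl : l ∉ r.S)
    (hh : CE r.Y r.R h) : Basic α (add r l h) := by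
  classical
  refine ⟨hr.cY, hr.cS.insert l, hr.gr, hr.ra, hr.r0, ?_, ?_, ?_⟩
  · intro i hi
    by_cases hil : i = l
    · refine ce_congr hr.gr.sub hh fun x hx => ?_
      have hx' : x ∈ r.Y := hx
      simp [add, hil, hx']
    · have hi' : i ∈ r.S := by
        rcases hi with h1 | h1
        · exact absurd h1 hil
        · exact h1
      have : (add r l h).h i = r.h i := by simp [add, hil]
      rw [this]
      exact hr.ce i hi'
  · intro i hi
    have hil : i ≠ l := fun h1 => hi (Or.inl h1)
    have hi' : i ∉ r.S := fun h1 => hi (Or.inr h1)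
    have : (add r l h).h i = r.h i := by simp [add, hil]
    rw [this]
    exact hr.h0 i hi'
  · intro i hi x hx
    by_cases hil : i = l
    · have hx' : x ∉ r.Y := hx
      simp [add, hil, hx']
    · have hi' : i ∈ r.S := by
        rcases hi with h1 | h1
        · exact absurd h1 hil
        · exact h1
      have : (add r l h).h i = r.h i := by simp [add, hil]
      rw [this]
      exact hr.h1 i hi' x hx

theorem le_add {r : Cnd Ω I} {l : I} {h : Ω → Ω} (hr : Basic α r) (hl : l ∉ r.S) :
    Le (add r l h) r := by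
  classical
  have hne : ∀ i ∈ r.S, i ≠ l := fun i hi h1 => hl (h1 ▸ hi)
  have hno : ∀ i x y, ¬ New r (add r l h) i x y := by
    rintro i x y ⟨_, hx, hx', _⟩
    exact hx' hx
  refine ⟨⟨subset_refl _, fun K => ?_, fun K hK => ?_, fun x _ => rfl⟩, subset_insert _ _, ?_, ?_,
    ?_, ?_⟩
  · exact ⟨fun h1 => ⟨h1, hr.gr.sub K h1⟩, fun h1 => h1.1⟩
  · have : K ∩ r.Y = K := inter_eq_left.2 (hr.gr.sub K hK)
    rw [this]
    exact hK
  · intro i hi x _
    simp [add, hne i hi]
  · intro i _ x hx hx'
    exact absurd hx hx'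
  · intro g x hg
    exact acts_empty hno hg
  · intro K _
    refine (finite_singleton (1 : FreeGroup I)).subset ?_
    rintro g ⟨x, _, y, _, hg⟩
    exact acts_empty hno hg

end DL

theorem dense_letter [Uncountable Ω] (hα : Ind α) {l : I} (hp : p ∈ V α b i) (hl : l < i)
    (hn : Nice (b l) (V α b l)) (hc : Le (res p l) (b l).c) :
    ∃ q ∈ V α b i, Le q p ∧ l ∈ q.S := by
  classical
  have hpb : Basic α p := V.basic hp
  by_cases hlp : l ∈ p.S
  · exact ⟨p, hp, Le.refl' hpb.gr, hlp⟩
  -- a decided tall condition with the letters below `l`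
  have hsc : SC (V α b l) := fun pn hpn hle => V.union hpn hle
  have hrl : res p l ∈ V α b l := V.res_mem hp l
  obtain ⟨r, hr, hrp, hD, r', hr', hT⟩ := tall_name hα (fun q hq => V.basic hq) hsc
    (lim_of_ext hα (ext_all hα b l)) hn hrl hc
  have hrb : Basic α r := V.basic hr
  have hcl : Cl r.Y r.R (ev (b l) r) := hn.closed r hr hD
  have hself : Cl r.Y r.R r.Y := Cl.self hrb.gr
  have htr : tr r.R r.Y = r.R := by
    ext O
    rw [mem_tr_clopen hrb.gr (A := r.Y) (fun K hK => by
      rw [inter_eq_left.2 (hrb.gr.sub K hK)]; exact hK)]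
    exact ⟨fun h1 => h1.1, fun h1 => ⟨h1, hrb.gr.sub O h1⟩⟩
  have hTE : Tall α r.R (ev (b l) r) r' := by
    intro ρ hρ K hK
    obtain ⟨x, hx, h1, h2⟩ := hT ρ hρ K hK
    exact ⟨x, hx.1, h1, h2⟩
  have hle' : ∀ x ∈ ev (b l) r, r' x ≤ r.r x :=
    rank_mono hrb.gr hcl hself hcl.1 hr' (by rw [htr]; exact hrb.gr)
  have hTY : Tall α r.R r.Y r.r := by
    intro ρ hρ K hK
    obtain ⟨x, hx, h1, h2⟩ := hTE ρ hρ K hK
    exact ⟨x, hcl.1 hx, h1, h2.trans (hle' x hx)⟩
  obtain ⟨h, hh, him⟩ := exists_ce hα hrb hTY hcl hr' hTE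
  -- the letters of `r` are below `l`
  have hrS : ∀ k ∈ r.S, k < l := V.letters hr
  have hlr : l ∉ r.S := fun h1 => lt_irrefl _ (hrS l h1)
  set s := DL.add r l h with hs
  have hsb : Basic α s := DL.basic_add hrb hlr hh
  have hsr : Le s r := DL.le_add hrb hlr
  -- restrictions of `s`
  have hres : ∀ k ≤ l, res s k = res r k := by
    intro k hk
    have hS : {j | j ∈ s.S ∧ j < k} = {j | j ∈ r.S ∧ j < k} := by
      ext j
      constructor
      · rintro ⟨h1 | h1, h2⟩
        · exact absurd (h1 ▸ h2 : l < k) (not_lt.2 hk)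
        · exact ⟨h1, h2⟩
      · rintro ⟨h1, h2⟩
        exact ⟨Or.inr h1, h2⟩
    have hh' : (fun j => if j < k then s.h j else id) = fun j => if j < k then r.h j else id := by
      funext j
      by_cases hj : j < k
      · have hjl : j ≠ l := fun h1 => absurd (h1 ▸ hj : l < k) (not_lt.2 hk)
        simp only [hj, if_true]
        simp [hs, DL.add, hjl]
      · simp [hj]
    simp only [res]
    rw [hS, hh']
    rfl
  have hresl : res s l = r := by
    rw [hres l le_rfl]
    exact res_eq_self hrb hrS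
  -- the least letter above `l`
  obtain ⟨j, hj, hjmin⟩ : ∃ j, l < j ∧ ∀ k, l < k → j ≤ k := by
    obtain ⟨j, hj, hmin⟩ := (wellFounded_lt (α := I)).has_min {k | l < k} ⟨i, hl⟩
    exact ⟨j, hj, fun k hk => not_lt.1 (hmin k hk)⟩
  have hji : j ≤ i := hjmin i hl
  have hsV : s ∈ V α b j := by
    rw [mem_V]
    refine ⟨hsb, fun k hk => ?_⟩
    rcases hk with h1 | h1
    · subst h1
      refine ⟨hj, hn, ?_, ?_⟩
      · rw [hresl]
        exact hD
      · rw [hresl, ← him]
        refine image_congr fun x hx => ?_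
        have hx' : x ∈ r.Y := hx
        simp [hs, DL.add, hx']
    · have hkl : k < l := hrS k h1
      obtain ⟨_, h2, h3, h4⟩ := (mem_V.1 hr).2 k h1
      refine ⟨hkl.trans hj, h2, ?_, ?_⟩
      · rw [hres k hkl.le]
        exact h3
      · rw [hres k hkl.le, ← h4]
        refine image_congr fun x _ => ?_
        simp [hs, DL.add, hkl.ne]
  -- `p` restricted below `j`
  have hpj : res p j = res p l := by
    have hS : {k | k ∈ p.S ∧ k < j} = {k | k ∈ p.S ∧ k < l} := by
      ext k
      constructor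
      · rintro ⟨h1, h2⟩
        refine ⟨h1, ?_⟩
        rcases lt_trichotomy k l with h3 | h3 | h3
        · exact h3
        · exact absurd (h3 ▸ h1) hlp
        · exact absurd h2 (not_lt.2 (hjmin k h3))
      · rintro ⟨h1, h2⟩
        exact ⟨h1, h2.trans hj⟩
    have hh' : (fun k => if k < j then p.h k else id) = fun k => if k < l then p.h k else id := by
      funext k
      by_cases h2 : k < l
      · simp [h2, h2.trans hj]
      · by_cases h3 : k < j
        · have hkl : k = l := by
            rcases lt_trichotomy k l with h4 | h4 | h4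
            · exact absurd h4 h2
            · exact h4
            · exact absurd h3 (not_lt.2 (hjmin k h4))
          simp [h3, h2, hpb.h0 k (hkl ▸ hlp)]
        · simp [h2, h3]
    simp only [res]
    rw [hS, hh']
  have hsp : Le s (res p j) := by
    rw [hpj]
    exact Le.trans' hsb hrb hsr hrp
  obtain ⟨q, hq, hqp, hqs⟩ := dense_compat hα hji hp hsV hsp
  exact ⟨q, hq, hqp, (hqs.S (Or.inl rfl)).1⟩

end Pool.Agent.Helper33.QB
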